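import Pool.Agent.Y169.TH.LP
import Pool.Agent.K1H17.LP.Stm0

/-!
Lattice points of the multiples of a rational polyhedron, after a bounded perturbation.
-/

set_option autoImplicit false
set_option maxHeartbeats 400000

namespace Pool.Agent.K1H36.LP

open Pool.Agent.Y169.TH (dotL dotL_apply farkas_fin exists_coords)
open Pool.Agent.K1H17.LP

variable {r : ℕ} {J : Type} {a : J → Fin r → ℚ} {b : J → ℚ}

lemma mem_pol {s : Fin r → ℚ} : s ∈ Pol a b ↔ ∀ j, 0 ≤ dotL (a j) s + b j := Iff.rfl

theorem implicit [Fintype J] (hne : (Pol a b).Nonempty) (j : J)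
    (hj : ∀ s ∈ Pol a b, dotL (a j) s + b j = 0) :
    ∃ w : J → ℚ, (∀ i, 0 ≤ w i) ∧ ∀ (s : Fin r → ℚ) (τ : ℚ),
      dotL (a j) s + b j * τ = - ∑ i, w i * (dotL (a i) s + b i * τ) := by
  classical
  let l : J ⊕ Unit → ((Fin r → ℚ) × ℚ) →ₗ[ℚ] ℚ := Sum.elim
    (fun i => -((dotL (a i)).comp (LinearMap.fst ℚ _ _) + b i • LinearMap.snd ℚ _ _))
    (fun _ => - LinearMap.snd ℚ _ _)
  obtain ⟨y, hy⟩ := hne
  obtain ⟨w, hw, hf⟩ := farkas_fin l
    ((dotL (a j)).comp (LinearMap.fst ℚ _ _) + b j • LinearMap.snd ℚ (Fin r → ℚ) ℚ) (by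
      rintro ⟨s, τ⟩ h
      have h1 : ∀ i, 0 ≤ dotL (a i) s + b i * τ := fun i => by
        have := h (Sum.inl i)
        simp only [l, Sum.elim_inl, LinearMap.neg_apply, LinearMap.add_apply,
          LinearMap.comp_apply, LinearMap.fst_apply, LinearMap.smul_apply, LinearMap.snd_apply,
          smul_eq_mul] at this
        linarith
      have h2 : 0 ≤ τ := by
        have := h (Sum.inr ())
        simp only [l, Sum.elim_inr, LinearMap.neg_apply, LinearMap.snd_apply] at this
        linarith
      change dotL (a j) s + b j * τ ≤ 0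
      rcases h2.lt_or_eq with h3 | h3
      · have h4 : τ⁻¹ • s ∈ Pol a b := by
          rw [mem_pol]
          intro i
          rw [map_smul, smul_eq_mul]
          have h5 : τ⁻¹ * dotL (a i) s + b i = τ⁻¹ * (dotL (a i) s + b i * τ) := by
            field_simp
          rw [h5]
          exact mul_nonneg (by positivity) (h1 i)
        have h5 := hj _ h4
        rw [map_smul, smul_eq_mul] at h5
        have h6 : dotL (a j) s + b j * τ = τ * (τ⁻¹ * dotL (a j) s + b j) := by
          field_simp
        rw [h6, h5, mul_zero]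
      · subst h3
        have h4 : y + s ∈ Pol a b := by
          rw [mem_pol]
          intro i
          rw [map_add]
          have h5 := h1 i
          have h6 := mem_pol.1 hy i
          linarith
        have h5 := hj _ h4
        have h6 := hj _ hy
        rw [map_add] at h5
        linarith)
  have hf' : ∀ (s : Fin r → ℚ) (τ : ℚ), dotL (a j) s + b j * τ =
      - ∑ i, w (Sum.inl i) * (dotL (a i) s + b i * τ) - w (Sum.inr ()) * τ := by
    intro s τ
    have h1 := hf (s, τ)
    rw [Fintype.sum_sum_type] at h1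
    simp only [l, Sum.elim_inr, Sum.elim_inl, LinearMap.neg_apply, LinearMap.add_apply,
      LinearMap.comp_apply, LinearMap.fst_apply, LinearMap.smul_apply, LinearMap.snd_apply,
      smul_eq_mul, Finset.univ_unique, Finset.sum_singleton] at h1
    rw [h1]
    simp only [mul_neg, Finset.sum_neg_distrib]
    rw [sub_eq_add_neg]
  have h0 : w (Sum.inr ()) = 0 := by
    have h1 := hf' y 1
    have h2 := hj y hy
    have h3 : 0 ≤ ∑ i, w (Sum.inl i) * (dotL (a i) y + b i * 1) :=
      Finset.sum_nonneg fun i _ => mul_nonneg (hw _) (by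
        have := mem_pol.1 hy i
        linarith)
    have h4 := hw (Sum.inr ())
    linarith
  refine ⟨fun i => w (Sum.inl i), fun i => hw _, fun s τ => ?_⟩
  rw [hf' s τ, h0]
  ring

/-- a point in the relative interior -/
theorem exists_relint [Fintype J] (hne : (Pol a b).Nonempty) :
    ∃ y0 ∈ Pol a b, ∀ s, dotL (a s) y0 + b s = 0 → ∀ y ∈ Pol a b, dotL (a s) y + b s = 0 := by
  classical
  have key : ∀ F : Finset J, ∃ y0 ∈ Pol a b, ∀ s ∈ F, dotL (a s) y0 + b s = 0 →
      ∀ y ∈ Pol a b, dotL (a s) y + b s = 0 := by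
    intro F
    induction F using Finset.induction_on with
    | empty =>
      obtain ⟨y0, hy0⟩ := hne
      exact ⟨y0, hy0, by simp⟩
    | insert s F hs ih =>
      obtain ⟨y0, hy0, h0⟩ := ih
      by_cases hall : ∀ y ∈ Pol a b, dotL (a s) y + b s = 0
      · refine ⟨y0, hy0, fun t ht _ => ?_⟩
        rcases Finset.mem_insert.1 ht with rfl | ht
        · exact hall
        · exact h0 t ht (by assumption)
      · push Not at hall
        obtain ⟨y1, hy1, hne1⟩ := hall
        have h1 : ∀ t, dotL (a t) ((1 / 2 : ℚ) • (y0 + y1)) + b t =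
            ((dotL (a t) y0 + b t) + (dotL (a t) y1 + b t)) / 2 := by
          intro t
          rw [map_smul, map_add, smul_eq_mul]
          ring
        refine ⟨(1 / 2 : ℚ) • (y0 + y1), fun t => ?_, fun t ht ht1 => ?_⟩
        · have h2 := h1 t
          have h3 := mem_pol.1 hy0 t
          have h4 := mem_pol.1 hy1 t
          change 0 ≤ dotL (a t) ((1 / 2 : ℚ) • (y0 + y1)) + b t
          rw [h2]
          linarith
        · rw [h1] at ht1
          have h2 := mem_pol.1 hy0 t
          have h3 := mem_pol.1 hy1 t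
          rcases Finset.mem_insert.1 ht with rfl | ht
          · exact absurd (by linarith : dotL (a t) y1 + b t = 0) hne1
          · exact h0 t ht (by linarith)
  obtain ⟨y0, hy0, h0⟩ := key Finset.univ
  exact ⟨y0, hy0, fun s => h0 s (Finset.mem_univ s)⟩

theorem small [Fintype J] {y0 z : Fin r → ℚ} (hy0 : y0 ∈ Pol a b)
    (h0 : ∀ s, dotL (a s) y0 + b s = 0 → ∀ y ∈ Pol a b, dotL (a s) y + b s = 0)
    (hz : ∀ s, (∀ y ∈ Pol a b, dotL (a s) y + b s = 0) → dotL (a s) z = 0) :
    ∃ ε : ℚ, 0 < ε ∧ y0 + ε • z ∈ Pol a b := by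
  classical
  have key : ∀ F : Finset J, ∃ δ : ℚ, 0 < δ ∧ ∀ s ∈ F, ∀ ε : ℚ, 0 ≤ ε → ε ≤ δ →
      0 ≤ dotL (a s) (y0 + ε • z) + b s := by
    intro F
    induction F using Finset.induction_on with
    | empty => exact ⟨1, one_pos, by simp⟩
    | insert s F hs ih =>
      obtain ⟨δ, hδ, h1⟩ := ih
      by_cases h2 : dotL (a s) y0 + b s = 0
      · refine ⟨δ, hδ, fun t ht ε hε hεδ => ?_⟩
        rcases Finset.mem_insert.1 ht with rfl | ht
        · rw [map_add, map_smul, hz t (h0 t h2), smul_zero, add_zero, h2]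
        · exact h1 t ht ε hε hεδ
      · have h3 : 0 < dotL (a s) y0 + b s := by
          have h4 := mem_pol.1 hy0 s
          rcases h4.lt_or_eq with h | h
          · linarith
          · exact absurd h.symm h2
        have h4 : 0 < (dotL (a s) y0 + b s) / (1 + |dotL (a s) z|) := by positivity
        refine ⟨min δ ((dotL (a s) y0 + b s) / (1 + |dotL (a s) z|)), lt_min hδ h4,
          fun t ht ε hε hεδ => ?_⟩
        rcases Finset.mem_insert.1 ht with rfl | ht
        · have h5 := hεδ.trans (min_le_right _ _)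
          rw [le_div_iff₀ (by positivity)] at h5
          rw [map_add, map_smul, smul_eq_mul]
          have h6 : -|dotL (a t) z| ≤ dotL (a t) z := neg_abs_le _
          have h7 : ε * (-|dotL (a t) z|) ≤ ε * dotL (a t) z := mul_le_mul_of_nonneg_left h6 hε
          linarith
        · exact h1 t ht ε hε (hεδ.trans (min_le_left _ _))
  obtain ⟨δ, hδ, h1⟩ := key Finset.univ
  exact ⟨δ, hδ, fun s => h1 s (Finset.mem_univ s) δ hδ.le le_rfl⟩

/-- vectors killed by the implicit equations are in the direction space -/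
theorem mem_vectorSpan [Fintype J] (hne : (Pol a b).Nonempty) {z : Fin r → ℚ}
    (hz : ∀ s, (∀ y ∈ Pol a b, dotL (a s) y + b s = 0) → dotL (a s) z = 0) :
    z ∈ vectorSpan ℚ (Pol a b) := by
  obtain ⟨y0, hy0, h0⟩ := exists_relint hne
  obtain ⟨ε, hε, h1⟩ := small hy0 h0 hz
  have h2 : ε • z ∈ vectorSpan ℚ (Pol a b) := by
    have h3 := vsub_mem_vectorSpan ℚ h1 hy0
    simpa using h3
  have h3 := Submodule.smul_mem _ ε⁻¹ h2
  rwa [smul_smul, inv_mul_cancel₀ hε.ne', one_smul] at h3

/-- common denominator -/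
lemma exists_den {α : Type} [Fintype α] (f : α → ℚ) :
    ∃ D : ℕ, 0 < D ∧ ∃ g : α → ℤ, ∀ x, (g x : ℚ) = D * f x := by
  classical
  refine ⟨∏ x, (f x).den, Finset.prod_pos fun x _ => (f x).den_pos, ?_⟩
  have h : ∀ x, ∃ z : ℤ, (z : ℚ) = ((∏ x, (f x).den : ℕ) : ℚ) * f x := by
    intro x
    obtain ⟨k, hk⟩ := Finset.dvd_prod_of_mem (fun x => (f x).den) (Finset.mem_univ x)
    refine ⟨k * (f x).num, ?_⟩
    rw [hk]
    push_cast
    have h1 : ((f x).den : ℚ) * f x = (f x).num := by
      rw [mul_comm]; exact Rat.mul_den_eq_num (f x)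
    calc (k : ℚ) * (f x).num = k * (((f x).den : ℚ) * f x) := by rw [h1]
      _ = _ := by ring
  exact ⟨fun x => (h x).choose, fun x => (h x).choose_spec⟩

theorem bound_implicit [Fintype J] (hne : (Pol a b).Nonempty) (C : ℝ) (j : J) :
    ∃ K : ℝ, 0 ≤ K ∧ ((∀ s ∈ Pol a b, dotL (a j) s + b j = 0) → ∀ (M : ℕ) (t : Fin r → ℤ),
      (∀ i, -C ≤ ∑ k, (a i k : ℝ) * t k + M * b i) → |∑ k, (a j k : ℝ) * t k + M * b j| ≤ K) := by
  by_cases hj : ∀ s ∈ Pol a b, dotL (a j) s + b j = 0
  · obtain ⟨w, hw, hf⟩ := implicit hne j hj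
    have hw' : ∀ i, (0 : ℝ) ≤ w i := fun i => by exact_mod_cast hw i
    refine ⟨|C| + (∑ i, (w i : ℝ)) * |C|, ?_, fun _ M t ht => ?_⟩
    · have := Finset.sum_nonneg fun i (_ : i ∈ Finset.univ) => hw' i
      positivity
    · have h1 : ∑ k, (a j k : ℝ) * t k + M * b j =
          - ∑ i, (w i : ℝ) * (∑ k, (a i k : ℝ) * t k + M * b i) := by
        have h2 := hf (fun k => (t k : ℚ)) M
        simp only [dotL_apply] at h2
        have h3 := congrArg (fun x : ℚ => (x : ℝ)) h2
        push_cast at h3
        rw [mul_comm (M : ℝ), h3]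
        congr 1
        exact Finset.sum_congr rfl fun i _ => by rw [mul_comm (M : ℝ)]
      have h2 : -|C| ≤ ∑ k, (a j k : ℝ) * t k + M * b j :=
        (neg_le_neg (le_abs_self C)).trans (ht j)
      have h3 : ∑ k, (a j k : ℝ) * t k + M * b j ≤ (∑ i, (w i : ℝ)) * |C| := by
        rw [h1, ← Finset.sum_neg_distrib, Finset.sum_mul]
        refine Finset.sum_le_sum fun i _ => ?_
        have h4 : -|C| ≤ ∑ k, (a i k : ℝ) * t k + M * b i :=
          (neg_le_neg (le_abs_self C)).trans (ht i)
        nlinarith [hw' i]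
      have h5 : 0 ≤ (∑ i, (w i : ℝ)) * |C| :=
        mul_nonneg (Finset.sum_nonneg fun i _ => hw' i) (abs_nonneg _)
      rw [abs_le]
      constructor
      · linarith
      · linarith [abs_nonneg C]
  · exact ⟨0, le_rfl, fun h => absurd h hj⟩

theorem t_CNT : S_CNT := by
  classical
  intro r J _ a b hne C R
  have := Fintype.ofFinite J
  obtain ⟨D, hD, g, hg⟩ := exists_den
    (fun x : (J × Fin r) ⊕ J => Sum.elim (fun p : J × Fin r => a p.1 p.2) b x)
  have hg1 : ∀ j k, ((g (Sum.inl (j, k)) : ℤ) : ℚ) = D * a j k := fun j k => hg _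
  have hg2 : ∀ j, ((g (Sum.inr j) : ℤ) : ℚ) = D * b j := fun j => hg _
  choose K hK0 hK using bound_implicit hne C
  obtain ⟨J0, hJ0, hJ1⟩ := exists_coords (vectorSpan ℚ (Pol a b))
  obtain ⟨R', hR'⟩ : ∃ R' : ℕ, |R| ≤ R' := exists_nat_ge _
  obtain ⟨N, hN⟩ : ∃ N : ℕ, ∑ j, D * K j ≤ N := exists_nat_ge _
  have hN' : ∀ j, D * K j ≤ N := fun j =>
    (Finset.single_le_sum (f := fun j => (D : ℝ) * K j)
      (fun i _ => mul_nonneg (Nat.cast_nonneg _) (hK0 i)) (Finset.mem_univ j)).trans hN
  let Imp : J → Prop := fun j => ∀ s ∈ Pol a b, dotL (a j) s + b j = 0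
  refine ⟨(2 * R' + 1) ^ J0.card * (2 * N + 1) ^ Fintype.card J, fun M hM F hF => ?_⟩
  let e : (Fin r → ℤ) → J → ℤ := fun t j =>
    ∑ k, g (Sum.inl (j, k)) * t k + M * g (Sum.inr j)
  have he : ∀ t j, ((e t j : ℤ) : ℝ) = D * (∑ k, (a j k : ℝ) * t k + M * b j) := by
    intro t j
    have h1 : ((e t j : ℤ) : ℚ) = D * (∑ k, (a j k : ℚ) * t k + M * b j) := by
      simp only [e]
      push_cast
      rw [hg2, mul_add, Finset.mul_sum]
      congr 1
      · exact Finset.sum_congr rfl fun k _ => by rw [hg1]; ring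
      · ring
    have h2 := congrArg (fun x : ℚ => (x : ℝ)) h1
    push_cast at h2
    exact h2
  let T1 : Finset (Fin r → ℤ) := Fintype.piFinset fun k : Fin r =>
    if k ∈ J0 then Finset.Icc (-((R' * M : ℕ) : ℤ)) ((R' * M : ℕ) : ℤ) else {0}
  let T2 : Finset (J → ℤ) := Fintype.piFinset fun j : J =>
    if Imp j then Finset.Icc (-(N : ℤ)) (N : ℤ) else {0}
  let φ : (Fin r → ℤ) → (Fin r → ℤ) × (J → ℤ) := fun t =>
    (fun k => if k ∈ J0 then t k else 0, fun j => if Imp j then e t j else 0)
  have hmaps : ∀ t ∈ F, φ t ∈ T1 ×ˢ T2 := by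
    intro t ht
    obtain ⟨h1, h2⟩ := hF t ht
    rw [Finset.mem_product]
    refine ⟨?_, ?_⟩
    · rw [Fintype.mem_piFinset]
      intro k
      simp only [φ]
      split_ifs with hk
      · have h3 : |(t k : ℝ)| ≤ R' * M :=
          (h1 k).trans (mul_le_mul_of_nonneg_right ((le_abs_self R).trans hR') (Nat.cast_nonneg _))
        rw [abs_le] at h3
        rw [Finset.mem_Icc]
        constructor
        · have := h3.1
          exact_mod_cast this
        · have := h3.2
          exact_mod_cast this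
      · simp
    · rw [Fintype.mem_piFinset]
      intro j
      simp only [φ]
      split_ifs with hj
      · have h3 := hK j hj M t h2
        have h4 : |((e t j : ℤ) : ℝ)| ≤ N := by
          rw [he, abs_mul, abs_of_nonneg (Nat.cast_nonneg (α := ℝ) D)]
          exact (mul_le_mul_of_nonneg_left h3 (Nat.cast_nonneg _)).trans (hN' j)
        rw [abs_le] at h4
        rw [Finset.mem_Icc]
        constructor
        · have := h4.1
          exact_mod_cast this
        · have := h4.2
          exact_mod_cast this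
      · simp
  have hinj : ∀ t ∈ F, ∀ t' ∈ F, φ t = φ t' → t = t' := by
    intro t _ t' _ h
    have h1 : ∀ k ∈ J0, t k = t' k := by
      intro k hk
      have := congrFun (congrArg Prod.fst h) k
      simpa only [φ, hk, if_true] using this
    have h2 : ∀ j, Imp j → e t j = e t' j := by
      intro j hj
      have := congrFun (congrArg Prod.snd h) j
      simpa only [φ, hj, if_true] using this
    have h3 : (fun k => ((t k : ℚ) - t' k)) = (0 : Fin r → ℚ) := by
      refine hJ1 _ (mem_vectorSpan hne fun j hj => ?_) fun k hk => ?_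
      · have h4 := congrArg (fun x : ℤ => (x : ℚ)) (h2 j hj)
        simp only [e] at h4
        push_cast at h4
        have h5 : (D : ℚ) * dotL (a j) (fun k => ((t k : ℚ) - t' k)) = 0 := by
          rw [dotL_apply, Finset.mul_sum]
          have h6 : ∀ k, (D : ℚ) * (a j k * ((t k : ℚ) - t' k)) =
              (g (Sum.inl (j, k)) : ℚ) * t k - (g (Sum.inl (j, k)) : ℚ) * t' k := by
            intro k
            rw [hg1]; ring
          rw [Finset.sum_congr rfl fun k _ => h6 k, Finset.sum_sub_distrib]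
          linarith
        rcases mul_eq_zero.1 h5 with h6 | h6
        · exact absurd h6 (by exact_mod_cast hD.ne')
        · exact h6
      · simp only [h1 k hk, sub_self]
    funext k
    have h4 := congrFun h3 k
    simp only [Pi.zero_apply] at h4
    have h5 : (t k : ℚ) = t' k := by linarith
    exact_mod_cast h5
  have hcard := Finset.card_le_card_of_injOn φ hmaps (fun t ht t' ht' h => hinj t ht t' ht' h)
  refine hcard.trans ?_
  rw [Finset.card_product, Fintype.card_piFinset, Fintype.card_piFinset, ← hJ0]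
  have hc1 : ∏ k : Fin r, (if k ∈ J0 then Finset.Icc (-((R' * M : ℕ) : ℤ)) ((R' * M : ℕ) : ℤ)
      else {0}).card ≤ ((2 * R' + 1) * M) ^ J0.card := by
    calc _ = ∏ k : Fin r, (if k ∈ J0 then (2 * (R' * M) + 1) else 1) := by
          refine Finset.prod_congr rfl fun k _ => ?_
          split_ifs
          · rw [Int.card_Icc]; omega
          · rfl
      _ = (2 * (R' * M) + 1) ^ J0.card := by
          rw [Finset.prod_ite_mem, Finset.univ_inter, Finset.prod_const]
      _ ≤ _ := by
          refine Nat.pow_le_pow_left ?_ _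
          nlinarith
  have hc2 : ∏ j : J, (if Imp j then Finset.Icc (-(N : ℤ)) (N : ℤ) else {0}).card ≤
      (2 * N + 1) ^ Fintype.card J := by
    calc _ ≤ ∏ _j : J, (2 * N + 1) := by
          refine Finset.prod_le_prod' fun j _ => ?_
          split_ifs
          · rw [Int.card_Icc]; omega
          · simp
      _ = _ := by rw [Finset.prod_const, Finset.card_univ]
  calc _ ≤ ((2 * R' + 1) * M) ^ J0.card * (2 * N + 1) ^ Fintype.card J :=
        Nat.mul_le_mul hc1 hc2
    _ = _ := by rw [mul_pow]; ring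

end Pool.Agent.K1H36.LP
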